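import Mathlib

set_option autoImplicit false

open Finset
open scoped Pointwise

namespace Pool.Agent.Helper79_SDPP

variable {H : Type*} [AddCommGroup H] [Fintype H] [DecidableEq H]

/-- Two families of finite sets with the simultaneous double product property. -/
structure IsSDPP {ι : Type*} (A B : ι → Finset H) : Prop where
  dpp : ∀ i, (A i + B i).card = (A i).card * (B i).card
  sep : ∀ i j k, i ≠ k → Disjoint (A i + B j) (A j + B k)

namespace IsSDPP

variable {ι : Type*} {A B : ι → Finset H}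

lemma inj (h : IsSDPP A B) {i : ι} {a a' b b' : H} (ha : a ∈ A i) (ha' : a' ∈ A i)
    (hb : b ∈ B i) (hb' : b' ∈ B i) (e : a + b = a' + b') : a = a' ∧ b = b' := by
  have h1 := Finset.card_add_iff.mp (h.dpp i)
  have h2 : ((a, b) : H × H) = (a', b') :=
    h1 (by simp [ha, hb]) (by simp [ha', hb']) e
  exact Prod.mk.inj h2

lemma eq_of_add_eq (h : IsSDPP A B) {i j k : ι} {a a' b b' : H} (ha : a ∈ A i) (hb : b ∈ B j)
    (ha' : a' ∈ A j) (hb' : b' ∈ B k) (e : a + b = a' + b') : i = k := by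
  by_contra hne
  have := h.sep i j k hne
  rw [Finset.disjoint_left] at this
  exact this (Finset.add_mem_add ha hb) (e ▸ Finset.add_mem_add ha' hb')

lemma disjA (h : IsSDPP A B) {i k : ι} {a : H} (ha : a ∈ A i) (ha' : a ∈ A k)
    (hB : (B k).Nonempty) : i = k := by
  obtain ⟨b, hb⟩ := hB
  exact h.eq_of_add_eq ha hb ha' hb rfl

lemma disjB (h : IsSDPP A B) {i k : ι} {b : H} (hb : b ∈ B i) (hb' : b ∈ B k)
    (hA : (A i).Nonempty) : i = k := by
  obtain ⟨a, ha⟩ := hA
  exact h.eq_of_add_eq ha hb ha hb' rfl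

end IsSDPP

open SimpleGraph.TripartiteFromTriangles in
/-- All triangles of the tripartite graph are explicit if a triple all of whose pairs are covered
is an index. -/
lemma cliqueFinset_subset {t : Finset (H × H × H)}
    (ht : ∀ a a' b b' c c' : H, (a', b, c) ∈ t → (a, b', c) ∈ t → (a, b, c') ∈ t → (a, b, c) ∈ t) :
    (SimpleGraph.TripartiteFromTriangles.graph t).cliqueFinset 3 ⊆ t.map toTriangle := by
  intro s hs
  rw [SimpleGraph.mem_cliqueFinset_iff, SimpleGraph.is3Clique_iff] at hs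
  obtain ⟨x, y, z, hxy, hxz, hyz, rfl⟩ := hs
  obtain ⟨a, b, c, habc, hab, hac, hbc⟩ := graph_triple hxy hxz hyz
  rw [Finset.mem_map]
  refine ⟨(a, b, c), ?_, habc⟩
  obtain ⟨c', hc'⟩ := Graph.in₀₁_iff.1 hab
  obtain ⟨b', hb'⟩ := Graph.in₀₂_iff.1 hac
  obtain ⟨a', ha'⟩ := Graph.in₁₂_iff.1 hbc
  exact ht a a' b b' c c' ha' hb' hc'

/-- Sharing two of three coordinates. -/
def Share (x y : H × H × H) : Prop :=
  (x.1 = y.1 ∧ x.2.1 = y.2.1) ∨ (x.1 = y.1 ∧ x.2.2 = y.2.2) ∨ (x.2.1 = y.2.1 ∧ x.2.2 = y.2.2)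

instance (x y : H × H × H) : Decidable (Share x y) := by unfold Share; infer_instance

/-- A maximal subset no two elements of which share two coordinates. -/
lemma exists_subset_share (t : Finset (H × H × H)) (D : ℝ)
    (hD : ∀ x ∈ t, ((t.filter (fun y => Share x y)).card : ℝ) ≤ D) :
    ∃ t' ⊆ t, (∀ x ∈ t', ∀ y ∈ t', Share x y → x = y) ∧ (t.card : ℝ) ≤ t'.card * D := by
  classical
  -- take a subset of maximal cardinality
  let 𝒮 : Finset (Finset (H × H × H)) :=
    t.powerset.filter (fun s => ∀ x ∈ s, ∀ y ∈ s, Share x y → x = y)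
  have hne : 𝒮.Nonempty := ⟨∅, by simp [𝒮]⟩
  obtain ⟨t', ht', hmax⟩ := Finset.exists_max_image 𝒮 Finset.card hne
  have ht'1 : t' ⊆ t := by
    have := (Finset.mem_filter.mp ht').1
    exact Finset.mem_powerset.mp this
  have ht'2 := (Finset.mem_filter.mp ht').2
  refine ⟨t', ht'1, ht'2, ?_⟩
  have hcover : t ⊆ t'.biUnion (fun x => t.filter (fun y => Share x y)) := by
    intro y hy
    by_contra hcon
    rw [Finset.mem_biUnion] at hcon
    push Not at hcon
    have hns : ∀ x ∈ t', ¬ Share x y := by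
      intro x hx hs
      exact hcon x hx (Finset.mem_filter.mpr ⟨hy, hs⟩)
    have hyt : y ∉ t' := fun hy' => hns y hy' (Or.inl ⟨rfl, rfl⟩)
    have hsymm : ∀ a b : H × H × H, Share a b → Share b a := by
      intro a b hab
      rcases hab with ⟨h1, h2⟩ | ⟨h1, h2⟩ | ⟨h1, h2⟩
      · exact Or.inl ⟨h1.symm, h2.symm⟩
      · exact Or.inr (Or.inl ⟨h1.symm, h2.symm⟩)
      · exact Or.inr (Or.inr ⟨h1.symm, h2.symm⟩)
    have hmem : insert y t' ∈ 𝒮 := by
      rw [Finset.mem_filter, Finset.mem_powerset]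
      refine ⟨Finset.insert_subset hy ht'1, ?_⟩
      intro a ha b hb hab
      rw [Finset.mem_insert] at ha hb
      rcases ha with rfl | ha
      · rcases hb with rfl | hb
        · rfl
        · exact absurd (hsymm _ _ hab) (hns b hb)
      · rcases hb with rfl | hb
        · exact absurd hab (hns a ha)
        · exact ht'2 a ha b hb hab
    have := hmax _ hmem
    rw [Finset.card_insert_of_notMem hyt] at this
    omega
  have h1 : (t.card : ℝ) ≤ ∑ x ∈ t', ((t.filter (fun y => Share x y)).card : ℝ) := by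
    have h2 := (Finset.card_le_card hcover).trans Finset.card_biUnion_le
    exact_mod_cast h2
  calc (t.card : ℝ) ≤ ∑ x ∈ t', ((t.filter (fun y => Share x y)).card : ℝ) := h1
    _ ≤ ∑ x ∈ t', D := Finset.sum_le_sum (fun x hx => hD x (ht'1 hx))
    _ = t'.card * D := by rw [Finset.sum_const, nsmul_eq_mul]

section Triples

variable {ι : Type*} [DecidableEq ι] (I : Finset ι) (A B : ι → Finset H)

/-- The triangle indices. -/
def tri : Finset (H × H × H) :=
  I.biUnion (fun i => ((univ : Finset H) ×ˢ A i ×ˢ B i).image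
    (fun p => (p.1, p.1 + p.2.1, p.1 + p.2.2)))

lemma mem_tri {p : H × H × H} : p ∈ tri I A B ↔ ∃ i ∈ I, p.2.1 - p.1 ∈ A i ∧ p.2.2 - p.1 ∈ B i := by
  unfold tri
  rw [Finset.mem_biUnion]
  constructor
  · rintro ⟨i, hi, hp⟩
    rw [Finset.mem_image] at hp
    obtain ⟨⟨x, a, b⟩, hq, rfl⟩ := hp
    simp only [Finset.mem_product, Finset.mem_univ, true_and] at hq
    exact ⟨i, hi, by simpa using hq.1, by simpa using hq.2⟩
  · rintro ⟨i, hi, ha, hb⟩
    refine ⟨i, hi, ?_⟩
    rw [Finset.mem_image]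
    refine ⟨(p.1, p.2.1 - p.1, p.2.2 - p.1), ?_, ?_⟩
    · simp [ha, hb]
    · ext <;> simp

variable {I A B}

lemma card_tri (h : IsSDPP A B) :
    (tri I A B).card = ∑ i ∈ I, Fintype.card H * ((A i).card * (B i).card) := by
  unfold tri
  rw [Finset.card_biUnion]
  · apply Finset.sum_congr rfl
    intro i _
    rw [Finset.card_image_of_injective]
    · simp [Finset.card_product]
    · rintro ⟨x, a, b⟩ ⟨x', a', b'⟩ hh
      simp only [Prod.mk.injEq] at hh ⊢
      obtain ⟨rfl, h2, h3⟩ := hh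
      exact ⟨rfl, add_left_cancel h2, add_left_cancel h3⟩
  · intro i _ j _ hij
    rw [Function.onFun, Finset.disjoint_left]
    intro p hp hp'
    rw [Finset.mem_image] at hp hp'
    obtain ⟨⟨x, a, b⟩, hq, rfl⟩ := hp
    obtain ⟨⟨x', a', b'⟩, hq', he⟩ := hp'
    simp only [Prod.mk.injEq] at he
    obtain ⟨rfl, h2, h3⟩ := he
    simp only [Finset.mem_product, Finset.mem_univ, true_and] at hq hq'
    have ha : a = a' := (add_left_cancel h2).symm
    subst ha
    exact hij (h.disjA hq.1 hq'.1 ⟨b', hq'.2⟩)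

lemma tri_closed (h : IsSDPP A B) (a a' b b' c c' : H) (h1 : (a', b, c) ∈ tri I A B)
    (h2 : (a, b', c) ∈ tri I A B) (h3 : (a, b, c') ∈ tri I A B) : (a, b, c) ∈ tri I A B := by
  rw [mem_tri] at h1 h2 h3 ⊢
  obtain ⟨j, hj, hj1, hj2⟩ := h1
  obtain ⟨k, hk, hk1, hk2⟩ := h2
  obtain ⟨i, hi, hi1, hi2⟩ := h3
  simp only at hj1 hj2 hk1 hk2 hi1 hi2 ⊢
  -- (b - a) + (c - a') = (b - a') + (c - a)
  have e : (b - a) + (c - a') = (b - a') + (c - a) := by abel
  have hik : i = k := h.eq_of_add_eq hi1 hj2 hj1 hk2 e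
  subst hik
  exact ⟨i, hi, hi1, hk2⟩

lemma card_share (h : IsSDPP A B) (D : ℝ) (hA : ∀ i ∈ I, ((A i).card : ℝ) ≤ D)
    (hB : ∀ i ∈ I, ((B i).card : ℝ) ≤ D) (hI : (I.card : ℝ) ≤ D) (x : H × H × H)
    (hx : x ∈ tri I A B) :
    (((tri I A B).filter (fun y => Share x y)).card : ℝ) ≤ 3 * D := by
  classical
  obtain ⟨i, hi, ha, hb⟩ := (mem_tri I A B).mp hx
  set t := tri I A B with ht
  -- three parts
  let t1 := t.filter (fun y => x.1 = y.1 ∧ x.2.1 = y.2.1)
  let t2 := t.filter (fun y => x.1 = y.1 ∧ x.2.2 = y.2.2)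
  let t3 := t.filter (fun y => x.2.1 = y.2.1 ∧ x.2.2 = y.2.2)
  have hsub : t.filter (fun y => Share x y) ⊆ t1 ∪ (t2 ∪ t3) := by
    intro y hy
    rw [Finset.mem_filter] at hy
    rw [Finset.mem_union, Finset.mem_union]
    rcases hy.2 with h1 | h1 | h1
    · exact Or.inl (Finset.mem_filter.mpr ⟨hy.1, h1⟩)
    · exact Or.inr (Or.inl (Finset.mem_filter.mpr ⟨hy.1, h1⟩))
    · exact Or.inr (Or.inr (Finset.mem_filter.mpr ⟨hy.1, h1⟩))
  have hc1 : t1.card ≤ (B i).card := by
    apply Finset.card_le_card_of_injOn (fun y => y.2.2 - x.1)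
    · intro y hy
      rw [Finset.mem_coe, Finset.mem_filter, ht, mem_tri] at hy
      obtain ⟨⟨j, hj, hj1, hj2⟩, e1, e2⟩ := hy
      rw [← e1] at hj1 hj2
      rw [← e2] at hj1
      have : i = j := h.disjA ha hj1 ⟨_, hj2⟩
      subst this
      exact hj2
    · intro y hy z hz hyz
      rw [Finset.mem_coe, Finset.mem_filter] at hy hz
      simp only [sub_left_inj] at hyz
      ext
      · rw [← hy.2.1, ← hz.2.1]
      · rw [← hy.2.2, ← hz.2.2]
      · exact hyz
  have hc2 : t2.card ≤ (A i).card := by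
    apply Finset.card_le_card_of_injOn (fun y => y.2.1 - x.1)
    · intro y hy
      rw [Finset.mem_coe, Finset.mem_filter, ht, mem_tri] at hy
      obtain ⟨⟨j, hj, hj1, hj2⟩, e1, e2⟩ := hy
      rw [← e1] at hj1 hj2
      rw [← e2] at hj2
      have : j = i := h.disjB hj2 hb ⟨_, hj1⟩
      subst this
      exact hj1
    · intro y hy z hz hyz
      rw [Finset.mem_coe, Finset.mem_filter] at hy hz
      simp only [sub_left_inj] at hyz
      ext
      · rw [← hy.2.1, ← hz.2.1]
      · exact hyz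
      · rw [← hy.2.2, ← hz.2.2]
  have hc3 : t3.card ≤ I.card := by
    have hch : ∀ y ∈ t3, ∃ j ∈ I, x.2.1 - y.1 ∈ A j ∧ x.2.2 - y.1 ∈ B j := by
      intro y hy
      rw [Finset.mem_filter, ht, mem_tri] at hy
      obtain ⟨⟨j, hj, hj1, hj2⟩, e1, e2⟩ := hy
      rw [← e1] at hj1
      rw [← e2] at hj2
      exact ⟨j, hj, hj1, hj2⟩
    have : Nonempty ι := ⟨i⟩
    choose! f hf using hch
    apply Finset.card_le_card_of_injOn f
    · intro y hy
      exact (hf y hy).1
    · intro y hy z hz hyz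
      obtain ⟨-, hy1, hy2⟩ := hf y hy
      obtain ⟨-, hz1, hz2⟩ := hf z hz
      rw [hyz] at hy1 hy2
      have e : (x.2.1 - y.1) + (x.2.2 - z.1) = (x.2.1 - z.1) + (x.2.2 - y.1) := by abel
      have := (h.inj hy1 hz1 hz2 hy2 e).1
      have hyz1 : y.1 = z.1 := sub_right_inj.mp this
      rw [Finset.mem_coe, Finset.mem_filter] at hy hz
      ext
      · exact hyz1
      · rw [← hy.2.1, ← hz.2.1]
      · rw [← hy.2.2, ← hz.2.2]
  have h1 : ((t.filter (fun y => Share x y)).card : ℝ) ≤ (t1.card : ℝ) + (t2.card + t3.card) := by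
    have h2 := (Finset.card_le_card hsub).trans ((Finset.card_union_le _ _).trans
      (add_le_add_right (Finset.card_union_le _ _) _))
    exact_mod_cast h2
  have e1 : (t1.card : ℝ) ≤ D := le_trans (by exact_mod_cast hc1) (hB i hi)
  have e2 : (t2.card : ℝ) ≤ D := le_trans (by exact_mod_cast hc2) (hA i hi)
  have e3 : (t3.card : ℝ) ≤ D := le_trans (by exact_mod_cast hc3) hI
  linarith

end Triples

section Main

variable {ι : Type*} [DecidableEq ι] {A B : ι → Finset H}

lemma sum_card_le (h : IsSDPP A B) (J : Finset ι)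
    (hJ : ∀ i ∈ J, (A i).Nonempty ∧ (B i).Nonempty) :
    ∑ i ∈ J, (A i).card ≤ Fintype.card H ∧ ∑ i ∈ J, (B i).card ≤ Fintype.card H := by
  constructor
  · rw [← Finset.card_biUnion]
    · exact Finset.card_le_univ _
    · intro i hi j hj hij
      rw [Function.onFun, Finset.disjoint_left]
      intro a ha ha'
      exact hij (h.disjA ha ha' (hJ j hj).2)
  · rw [← Finset.card_biUnion]
    · exact Finset.card_le_univ _
    · intro i hi j hj hij
      rw [Function.onFun, Finset.disjoint_left]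
      intro a ha ha'
      exact hij (h.disjB ha ha' (hJ i hi).1)

lemma mul_card_le (h : IsSDPP A B) (i : ι) : (A i).card * (B i).card ≤ Fintype.card H := by
  rw [← h.dpp i]
  exact Finset.card_le_univ _

omit [AddCommGroup H] [Fintype H] [DecidableEq H] in
lemma amgm_aux {a b q : ℝ} (ha : 0 ≤ a) (hb : 0 ≤ b) (hq : 0 ≤ q) (hab : a * b ≤ q * q) :
    a * b ≤ q * ((a + b) / 2) := by
  have h4 : (a * b) ^ 2 ≤ (q * ((a + b) / 2)) ^ 2 := by
    have e2 : a * b ≤ ((a + b) / 2) ^ 2 := by nlinarith [sq_nonneg (a - b)]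
    calc (a * b) ^ 2 = (a * b) * (a * b) := by ring
      _ ≤ (q * q) * ((a + b) / 2) ^ 2 := mul_le_mul hab e2 (by positivity) (by positivity)
      _ = _ := by ring
  exact (pow_le_pow_iff_left₀ (by positivity) (by positivity) (by norm_num)).mp h4

set_option maxHeartbeats 2000000 in
/-- The quantitative statement: for `h = |H|` large in terms of the triangle removal bound. -/
theorem sum_le_of_large {ε : ℝ} (hε : 0 < ε) (J : Finset ι)
    (h : IsSDPP A B)
    (hlarge : 1 < 27 * SimpleGraph.triangleRemovalBound (ε ^ 2 / 432) * √(Fintype.card H)) :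
    ∑ i ∈ J, ((A i).card : ℝ) * (B i).card ≤ ε * (Fintype.card H * √(Fintype.card H)) := by
  classical
  set n : ℝ := (Fintype.card H : ℝ) with hn
  set q : ℝ := √n with hq
  have hn0 : 0 ≤ n := Nat.cast_nonneg _
  have hqq : q * q = n := Real.mul_self_sqrt hn0
  have hc : 0 < SimpleGraph.triangleRemovalBound (ε ^ 2 / 432) :=
    SimpleGraph.triangleRemovalBound_pos (by positivity)
  set c := SimpleGraph.triangleRemovalBound (ε ^ 2 / 432) with hcdef
  have hq0 : 0 < q := by
    by_contra hcon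
    have : q ≤ 0 := not_lt.mp hcon
    have : 27 * c * q ≤ 0 := mul_nonpos_of_nonneg_of_nonpos (by positivity) this
    linarith
  by_contra hcon
  push Not at hcon
  -- nonempty indices
  set J₀ := J.filter (fun i => (A i).Nonempty ∧ (B i).Nonempty) with hJ₀
  have hJ₀sum : ∑ i ∈ J, ((A i).card : ℝ) * (B i).card
      = ∑ i ∈ J₀, ((A i).card : ℝ) * (B i).card := by
    rw [hJ₀, Finset.sum_filter]
    apply Finset.sum_congr rfl
    intro i _
    split_ifs with hi
    · rfl
    · rw [not_and_or, Finset.not_nonempty_iff_eq_empty, Finset.not_nonempty_iff_eq_empty] at hi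
      rcases hi with hi | hi <;> simp [hi]
  have hJ₀ne : ∀ i ∈ J₀, (A i).Nonempty ∧ (B i).Nonempty := fun i hi =>
    (Finset.mem_filter.mp hi).2
  obtain ⟨hsA, hsB⟩ := sum_card_le h J₀ hJ₀ne
  have hsA' : ∑ i ∈ J₀, ((A i).card : ℝ) ≤ n := by rw [hn]; exact_mod_cast hsA
  have hsB' : ∑ i ∈ J₀, ((B i).card : ℝ) ≤ n := by rw [hn]; exact_mod_cast hsB
  have hmul : ∀ i, ((A i).card : ℝ) * (B i).card ≤ n := fun i => by
    rw [hn]; exact_mod_cast mul_card_le h i
  -- good indices
  set I := J₀.filter (fun i => ((A i).card : ℝ) ≤ 8 / ε * q ∧ ((B i).card : ℝ) ≤ 8 / ε * q ∧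
    (ε / 8) * q ≤ ((A i).card + (B i).card) / 2 ∧
    (ε / 8) ^ 2 * n ≤ ((A i).card : ℝ) * (B i).card) with hI
  have hbad : ∀ i ∈ J₀, i ∉ I →
      ((A i).card : ℝ) * (B i).card ≤ (ε / 8) * q * ((A i).card + (B i).card) := by
    intro i hi hiI
    have ha0 : (0 : ℝ) ≤ (A i).card := Nat.cast_nonneg _
    have hb0 : (0 : ℝ) ≤ (B i).card := Nat.cast_nonneg _
    set a : ℝ := ((A i).card : ℝ)
    set b : ℝ := ((B i).card : ℝ)
    have hab := hmul i
    change a * b ≤ n at hab
    by_cases h1 : a ≤ 8 / ε * q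
    · by_cases h2 : b ≤ 8 / ε * q
      · by_cases h3 : (ε / 8) ^ 2 * n ≤ a * b
        · exfalso
          apply hiI
          rw [hI, Finset.mem_filter]
          refine ⟨hi, h1, h2, ?_, h3⟩
          -- AM-GM
          have h4 : ((ε / 8) * q) ^ 2 ≤ ((a + b) / 2) ^ 2 := by
            have : ((ε / 8) * q) ^ 2 = (ε / 8) ^ 2 * n := by rw [← hqq]; ring
            rw [this]
            nlinarith [sq_nonneg (a - b)]
          exact (pow_le_pow_iff_left₀ (by positivity) (by positivity) (by norm_num)).mp h4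
        · push Not at h3
          -- a b < ((ε/8) q)^2 and a b ≤ ((a+b)/2)^2
          have h4 : (a * b) ^ 2 ≤ ((ε / 8) * q * (a + b)) ^ 2 := by
            have e1 : ((ε / 8) * q * (a + b)) ^ 2 = ((ε / 8) ^ 2 * n) * (a + b) ^ 2 := by
              rw [← hqq]; ring
            rw [e1]
            have e2 : a * b ≤ (a + b) ^ 2 := by nlinarith [sq_nonneg (a - b), mul_nonneg ha0 hb0]
            calc (a * b) ^ 2 = (a * b) * (a * b) := by ring
              _ ≤ ((ε / 8) ^ 2 * n) * (a + b) ^ 2 :=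
                mul_le_mul h3.le e2 (by positivity) (by positivity)
          exact (pow_le_pow_iff_left₀ (by positivity) (by positivity) (by norm_num)).mp h4
      · push Not at h2
        have h5 : n ≤ (ε / 8) * q * b := by
          have : (ε / 8) * q * (8 / ε * q) ≤ (ε / 8) * q * b :=
            mul_le_mul_of_nonneg_left h2.le (by positivity)
          have e : (ε / 8) * q * (8 / ε * q) = n := by
            rw [← hqq]; field_simp
          linarith
        have : 0 ≤ (ε / 8) * q * a := by positivity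
        linarith
    · push Not at h1
      have h5 : n ≤ (ε / 8) * q * a := by
        have : (ε / 8) * q * (8 / ε * q) ≤ (ε / 8) * q * a :=
          mul_le_mul_of_nonneg_left h1.le (by positivity)
        have e : (ε / 8) * q * (8 / ε * q) = n := by
          rw [← hqq]; field_simp
        linarith
      have : 0 ≤ (ε / 8) * q * b := by positivity
      linarith
  -- the good indices carry most of the sum
  have hgood : ε / 2 * (n * q) ≤ ∑ i ∈ I, ((A i).card : ℝ) * (B i).card := by
    have hsplit := Finset.sum_filter_add_sum_filter_not J₀ (fun i => i ∈ I)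
      (fun i => ((A i).card : ℝ) * (B i).card)
    have e1 : J₀.filter (fun i => i ∈ I) = I := by
      ext i
      rw [Finset.mem_filter]
      exact ⟨fun hh => hh.2, fun hh => ⟨(Finset.mem_filter.mp hh).1, hh⟩⟩
    rw [e1] at hsplit
    have e2 : ∑ i ∈ J₀.filter (fun i => i ∉ I), ((A i).card : ℝ) * (B i).card
        ≤ ∑ i ∈ J₀.filter (fun i => i ∉ I), (ε / 8) * q * ((A i).card + (B i).card) := by
      apply Finset.sum_le_sum
      intro i hi
      rw [Finset.mem_filter] at hi
      exact hbad i hi.1 hi.2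
    have e3 : ∑ i ∈ J₀.filter (fun i => i ∉ I), (ε / 8) * q * (((A i).card : ℝ) + (B i).card)
        ≤ ∑ i ∈ J₀, (ε / 8) * q * (((A i).card : ℝ) + (B i).card) := by
      apply Finset.sum_le_sum_of_subset_of_nonneg (Finset.filter_subset _ _)
      intro i _ _
      positivity
    have e4 : ∑ i ∈ J₀, (ε / 8) * q * (((A i).card : ℝ) + (B i).card)
        ≤ (ε / 8) * q * (2 * n) := by
      rw [← Finset.mul_sum, Finset.sum_add_distrib]
      apply mul_le_mul_of_nonneg_left _ (by positivity)
      linarith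
    rw [hJ₀sum] at hcon
    have e6 : 0 ≤ ε * (n * q) := by positivity
    have e7 : (ε / 8) * q * (2 * n) = 1 / 4 * (ε * (n * q)) := by ring
    have e8 : ε / 2 * (n * q) = 1 / 2 * (ε * (n * q)) := by ring
    rw [e7] at e4
    rw [e8]
    linarith
  -- number of good indices
  have hIJ : I ⊆ J₀ := Finset.filter_subset _ _
  have hIcard : (I.card : ℝ) ≤ 8 / ε * q := by
    have e1 : ∑ i ∈ I, (ε / 8) * q ≤ ∑ i ∈ I, (((A i).card : ℝ) + (B i).card) / 2 := by
      apply Finset.sum_le_sum
      intro i hi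
      exact (Finset.mem_filter.mp hi).2.2.2.1
    have e2 : ∑ i ∈ I, (((A i).card : ℝ) + (B i).card) / 2
        ≤ ∑ i ∈ J₀, (((A i).card : ℝ) + (B i).card) / 2 := by
      apply Finset.sum_le_sum_of_subset_of_nonneg hIJ
      intro i _ _
      positivity
    have e3 : ∑ i ∈ J₀, (((A i).card : ℝ) + (B i).card) / 2 ≤ n := by
      rw [← Finset.sum_div, Finset.sum_add_distrib]
      linarith
    rw [Finset.sum_const, nsmul_eq_mul] at e1
    have e4 : (I.card : ℝ) * (ε / 8 * q) ≤ q * q := by rw [hqq]; linarith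
    have e5 : (I.card : ℝ) * (ε / 8) ≤ q := by
      have : (I.card : ℝ) * (ε / 8) * q ≤ q * q := by linarith
      exact le_of_mul_le_mul_right this hq0
    rw [div_mul_eq_mul_div, le_div_iff₀ hε]
    linarith
  -- the triples
  set t := tri I A B with ht
  have htcard : (t.card : ℝ) = n * ∑ i ∈ I, ((A i).card : ℝ) * (B i).card := by
    rw [ht, card_tri h, hn, Finset.mul_sum]
    push_cast
    rfl
  have hshare : ∀ x ∈ t, ((t.filter (fun y => Share x y)).card : ℝ) ≤ 3 * (8 / ε * q) := by
    intro x hx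
    exact card_share h (8 / ε * q) (fun i hi => (Finset.mem_filter.mp hi).2.1)
      (fun i hi => (Finset.mem_filter.mp hi).2.2.1) hIcard x hx
  obtain ⟨t', ht't, hdisj, hlow⟩ := exists_subset_share t _ hshare
  -- lower bound for t'
  have ht'card : ε ^ 2 / 48 * (n * n) ≤ t'.card := by
    have e1 : n * (ε / 2 * (n * q)) ≤ t'.card * (3 * (8 / ε * q)) := by
      calc n * (ε / 2 * (n * q)) ≤ n * ∑ i ∈ I, ((A i).card : ℝ) * (B i).card :=
            mul_le_mul_of_nonneg_left hgood hn0
        _ = t.card := htcard.symm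
        _ ≤ _ := hlow
    have e2 : (ε ^ 2 / 48 * (n * n)) * (3 * (8 / ε * q)) ≤ t'.card * (3 * (8 / ε * q)) := by
      have e3 : (ε ^ 2 / 48 * (n * n)) * (3 * (8 / ε * q)) = n * (ε / 2 * (n * q)) := by
        field_simp
        ring
      rw [e3]
      exact e1
    exact le_of_mul_le_mul_right e2 (by positivity)
  -- the graph is far from triangle free
  have hfar : (SimpleGraph.TripartiteFromTriangles.graph t).FarFromTriangleFree (ε ^ 2 / 432) := by
    apply SimpleGraph.farFromTriangleFree_of_disjoint_triangles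
      (t'.map SimpleGraph.TripartiteFromTriangles.toTriangle)
    · intro s hs
      rw [Finset.mem_map] at hs
      obtain ⟨x, hx, rfl⟩ := hs
      rw [SimpleGraph.mem_cliqueFinset_iff]
      exact SimpleGraph.TripartiteFromTriangles.toTriangle_is3Clique (ht't hx)
    · have : SimpleGraph.TripartiteFromTriangles.ExplicitDisjoint t' := by
        refine ⟨?_, ?_, ?_⟩
        · intro a b c a' h1 h2
          have := hdisj _ h1 _ h2 (Or.inr (Or.inr ⟨rfl, rfl⟩))
          exact (Prod.mk.inj this).1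
        · intro a b c b' h1 h2
          have := hdisj _ h1 _ h2 (Or.inr (Or.inl ⟨rfl, rfl⟩))
          exact (Prod.mk.inj (Prod.mk.inj this).2).1
        · intro a b c c' h1 h2
          have := hdisj _ h1 _ h2 (Or.inl ⟨rfl, rfl⟩)
          exact (Prod.mk.inj (Prod.mk.inj this).2).2
      exact SimpleGraph.TripartiteFromTriangles.map_toTriangle_disjoint t'
    · rw [Finset.card_map]
      have : (Fintype.card (H ⊕ H ⊕ H) : ℝ) = 3 * n := by
        rw [Fintype.card_sum, Fintype.card_sum]; push_cast; ring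
      push_cast
      rw [this]
      linarith
  -- apply the triangle removal lemma
  have hrem := hfar.le_card_cliqueFinset
  have hsub := Finset.card_le_card (cliqueFinset_subset (tri_closed h (I := I)))
  rw [Finset.card_map] at hsub
  have hsub' : (((SimpleGraph.TripartiteFromTriangles.graph t).cliqueFinset 3).card : ℝ)
      ≤ t.card := by exact_mod_cast hsub
  have hcardV : (Fintype.card (H ⊕ H ⊕ H) : ℝ) = 3 * n := by
    rw [Fintype.card_sum, Fintype.card_sum]; push_cast; ring
  rw [hcardV, ← hcdef] at hrem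
  -- upper bound for t
  have hup : (t.card : ℝ) ≤ n * (n * q) := by
    rw [htcard]
    apply mul_le_mul_of_nonneg_left _ hn0
    have e1 : ∀ i ∈ I, ((A i).card : ℝ) * (B i).card
        ≤ q * ((((A i).card : ℝ) + (B i).card) / 2) := by
      intro i _
      exact amgm_aux (Nat.cast_nonneg _) (Nat.cast_nonneg _) hq0.le (hqq ▸ hmul i)
    have e2 := Finset.sum_le_sum e1
    have e3 : ∑ i ∈ I, q * ((((A i).card : ℝ) + (B i).card) / 2)
        ≤ ∑ i ∈ J₀, q * ((((A i).card : ℝ) + (B i).card) / 2) := by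
      apply Finset.sum_le_sum_of_subset_of_nonneg hIJ
      intro i _ _
      positivity
    have e4 : ∑ i ∈ J₀, q * ((((A i).card : ℝ) + (B i).card) / 2) ≤ q * n := by
      rw [← Finset.mul_sum, ← Finset.sum_div, Finset.sum_add_distrib]
      apply mul_le_mul_of_nonneg_left _ hq0.le
      linarith
    linarith
  have hfin : c * (3 * n) ^ 3 ≤ n * (n * q) := hrem.trans (hsub'.trans hup)
  have hn1 : 0 < n := by rw [← hqq]; positivity
  have h27 : 27 * c * q * (n * n * q) ≤ 1 * (n * n * q) := by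
    have e1 : c * (3 * n) ^ 3 = 27 * c * q * (n * n * q) := by
      have : (n : ℝ) ^ 3 = n * n * (q * q) := by rw [hqq]; ring
      rw [mul_pow, this]; ring
    rw [← e1]
    linarith
  have := le_of_mul_le_mul_right h27 (by positivity)
  linarith

end Main

end Pool.Agent.Helper79_SDPP
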