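import Mathlib

set_option autoImplicit false

open Finset
open scoped Pointwise

namespace Pool.Agent.Helper79_SDPP

/-! ### Product sets in a power of a group -/

section Pi

variable {H : Type*} [AddCommGroup H] {κ : Type*} [Fintype κ]

lemma pi_add_pi (s t : κ → Set H) :
    (Set.univ.pi s) + (Set.univ.pi t) = Set.univ.pi (fun c => s c + t c) := by
  ext x
  simp only [Set.mem_add, Set.mem_pi, Set.mem_univ, forall_true_left]
  constructor
  · rintro ⟨a, ha, b, hb, rfl⟩ c
    exact ⟨a c, ha c, b c, hb c, rfl⟩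
  · intro h
    choose a ha b hb hab using h
    exact ⟨a, ha, b, hb, funext hab⟩

lemma ncard_pi (s : κ → Set H) :
    (Set.univ.pi s).ncard = ∏ c, (s c).ncard := by
  classical
  rw [← Nat.card_coe_set_eq]
  rw [Nat.card_congr (Equiv.Set.univPi s)]
  rw [Nat.card_pi]
  simp [Nat.card_coe_set_eq]

end Pi

/-- Words over `Fin n` of length `N` with large size product and fixed sum. -/
lemma exists_code {n : ℕ} (hn : 2 ≤ n) (s : Fin n → ℝ) (hs : ∀ i, 0 < s i) (N : ℕ) :
    ∃ 𝒞 : Finset (Fin N → Fin n),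
      (∀ u ∈ 𝒞, ∀ v ∈ 𝒞, u ≠ v → ∃ c, u c < v c) ∧
      (∀ u ∈ 𝒞, (∏ i, s i) ^ N ≤ (∏ c, s (u c)) ^ n) ∧
      n ^ N ≤ 𝒞.card * (n * (n * N + 1)) := by
  classical
  have : NeZero n := ⟨by omega⟩
  -- good words
  let 𝒢 : Finset (Fin N → Fin n) :=
    univ.filter (fun u => (∏ i, s i) ^ N ≤ (∏ c, s (u c)) ^ n)
  -- every word has a good shift
  have hshift : (univ : Finset (Fin N → Fin n)) ⊆
      (univ : Finset (Fin n)).biUnion (fun r => 𝒢.image (fun u c => u c - r)) := by
    intro u _
    rw [Finset.mem_biUnion]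
    by_contra hcon
    push Not at hcon
    have hbad : ∀ r : Fin n, (∏ c, s (u c + r)) ^ n < (∏ i, s i) ^ N := by
      intro r
      by_contra hge
      push Not at hge
      apply hcon r (Finset.mem_univ r)
      rw [Finset.mem_image]
      refine ⟨fun c => u c + r, ?_, ?_⟩
      · rw [Finset.mem_filter]
        exact ⟨Finset.mem_univ _, hge⟩
      · funext c
        simp
    have hprod : ∏ r : Fin n, (∏ c, s (u c + r)) ^ n = ((∏ i, s i) ^ N) ^ n := by
      rw [Finset.prod_pow]
      congr 1
      rw [Finset.prod_comm]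
      have : ∀ c : Fin N, ∏ r : Fin n, s (u c + r) = ∏ i, s i := by
        intro c
        exact Fintype.prod_equiv (Equiv.addLeft (u c)) _ _ (fun r => rfl)
      rw [Finset.prod_congr rfl (fun c _ => this c)]
      simp
    have hlt : ∏ r : Fin n, (∏ c, s (u c + r)) ^ n < ∏ r : Fin n, (∏ i, s i) ^ N := by
      apply Finset.prod_lt_prod_of_nonempty
      · intro r _
        exact pow_pos (Finset.prod_pos (fun c _ => hs _)) _
      · intro r _
        exact hbad r
      · exact Finset.univ_nonempty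
    rw [hprod] at hlt
    simp at hlt
  have hcard1 : n ^ N ≤ n * 𝒢.card := by
    have h1 := Finset.card_le_card hshift
    have h2 : ((univ : Finset (Fin n)).biUnion
        (fun r => 𝒢.image (fun u c => u c - r))).card ≤ ∑ _r : Fin n, 𝒢.card :=
      Finset.card_biUnion_le.trans (Finset.sum_le_sum (fun r _ => Finset.card_image_le))
    simp at h1 h2
    exact h1.trans h2
  -- pigeonhole on the sum
  let f : (Fin N → Fin n) → ℕ := fun u => ∑ c, (u c : ℕ)
  have hmaps : ∀ u ∈ 𝒢, f u ∈ Finset.range (n * N + 1) := by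
    intro u _
    rw [Finset.mem_range, Nat.lt_succ_iff]
    calc f u ≤ ∑ _c : Fin N, n := Finset.sum_le_sum (fun c _ => (u c).2.le)
      _ = n * N := by simp [mul_comm]
  have hex : ∃ y ∈ Finset.range (n * N + 1),
      𝒢.card ≤ (n * N + 1) * (𝒢.filter (fun u => f u = y)).card := by
    by_contra hcon
    push Not at hcon
    have h1 : 𝒢.card = ∑ y ∈ Finset.range (n * N + 1), (𝒢.filter (fun u => f u = y)).card :=
      Finset.card_eq_sum_card_fiberwise (fun u hu => by
        exact Finset.mem_coe.mpr (hmaps u (Finset.mem_coe.mp hu)))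
    have h2 : ∑ y ∈ Finset.range (n * N + 1), (n * N + 1) * (𝒢.filter (fun u => f u = y)).card
        < ∑ y ∈ Finset.range (n * N + 1), 𝒢.card := by
      apply Finset.sum_lt_sum_of_nonempty
      · exact ⟨0, by simp⟩
      · exact hcon
    rw [← Finset.mul_sum, ← h1, Finset.sum_const, Finset.card_range, smul_eq_mul] at h2
    exact lt_irrefl _ h2
  obtain ⟨y, -, hy⟩ := hex
  refine ⟨𝒢.filter (fun u => f u = y), ?_, ?_, ?_⟩
  · intro u hu v hv huv
    rw [Finset.mem_filter] at hu hv
    by_contra hcon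
    push Not at hcon
    have hle : ∀ c ∈ (univ : Finset (Fin N)), (v c : ℕ) ≤ (u c : ℕ) := fun c _ => hcon c
    have hsum : ∑ c, (v c : ℕ) = ∑ c, (u c : ℕ) := hv.2.trans hu.2.symm
    have := (Finset.sum_eq_sum_iff_of_le hle).mp hsum
    apply huv
    funext c
    exact Fin.ext (this c (Finset.mem_univ c)).symm
  · intro u hu
    rw [Finset.mem_filter] at hu
    exact (Finset.mem_filter.mp hu.1).2
  · calc n ^ N ≤ n * 𝒢.card := hcard1
      _ ≤ n * ((n * N + 1) * (𝒢.filter (fun u => f u = y)).card) :=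
        Nat.mul_le_mul_left _ hy
      _ = _ := by ring

end Pool.Agent.Helper79_SDPP
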